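import Mathlib

set_option autoImplicit false
open Finset

namespace Pool.Agent.R18.LX

section Abstract
open Classical
variable {V : Type} [Fintype V]

/-- General position in coordinates: no three points on a line. -/
def GP (X Y : V → ℝ) : Prop := ∀ i j l : V, i ≠ j → j ≠ l → i ≠ l →
  (X j - X i) * (Y l - Y i) ≠ (X l - X i) * (Y j - Y i)

/-- Number of edges with both ends in `S`. -/
noncomputable def eIn (G : SimpleGraph V) (S : Finset V) : ℕ :=
  (G.edgeFinset.filter (fun e => ∀ v ∈ e, v ∈ S)).card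

/-- Number of edges separated by the sign of `s`. -/
noncomputable def cutS (G : SimpleGraph V) (s : V → ℝ) : ℕ :=
  (G.edgeFinset.filter (fun e => ∃ u ∈ e, ∃ v ∈ e, s u < 0 ∧ 0 < s v)).card

lemma eIn_le (G : SimpleGraph V) (S : Finset V) : eIn G S ≤ S.card.choose 2 := by
  rw [← Sym2.card_image_offDiag]
  apply card_le_card
  intro e he
  rw [mem_filter] at he
  obtain ⟨h1, h2⟩ := he
  induction e with
  | _ u v =>
    rw [SimpleGraph.mem_edgeFinset, SimpleGraph.mem_edgeSet] at h1
    rw [mem_image]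
    refine ⟨(u, v), ?_, rfl⟩
    rw [mem_offDiag]
    exact ⟨h2 u (by simp), h2 v (by simp), h1.ne⟩

lemma split_mem (G : SimpleGraph V) (s : V → ℝ) (hs : ∀ v, s v ≠ 0) (A : Finset V)
    (e : Sym2 V) (he : e ∈ G.edgeFinset) (hA : ∀ v ∈ e, v ∈ A) :
    e ∈ G.edgeFinset.filter (fun e => ∀ v ∈ e, v ∈ A.filter (fun v => s v < 0)) ∪
      (G.edgeFinset.filter (fun e => ∀ v ∈ e, v ∈ A.filter (fun v => ¬ s v < 0)) ∪
      G.edgeFinset.filter (fun e => ∃ u ∈ e, ∃ v ∈ e, s u < 0 ∧ 0 < s v)) := by
  rw [mem_union, mem_union, mem_filter, mem_filter, mem_filter]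
  by_cases h1 : ∀ v ∈ e, s v < 0
  · left
    exact ⟨he, fun v hv => mem_filter.2 ⟨hA v hv, h1 v hv⟩⟩
  · by_cases h2 : ∀ v ∈ e, ¬ s v < 0
    · right; left
      exact ⟨he, fun v hv => mem_filter.2 ⟨hA v hv, h2 v hv⟩⟩
    · right; right
      push Not at h1 h2
      obtain ⟨v, hv, hv'⟩ := h1
      obtain ⟨u, hu, hu'⟩ := h2
      exact ⟨he, u, hu, v, hv, hu', lt_of_le_of_ne hv' (Ne.symm (hs v))⟩

lemma split2 (G : SimpleGraph V) (s : V → ℝ) (hs : ∀ v, s v ≠ 0) (A B : Finset V)
    (hAB : Disjoint A B) :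
    eIn G A + eIn G B ≤ (eIn G (A.filter (fun v => s v < 0)) + eIn G (B.filter (fun v => s v < 0))) +
      (eIn G (A.filter (fun v => ¬ s v < 0)) + eIn G (B.filter (fun v => ¬ s v < 0))) + cutS G s := by
  unfold eIn cutS
  rw [← card_union_of_disjoint]
  · calc _ ≤ ((G.edgeFinset.filter (fun e => ∀ v ∈ e, v ∈ A.filter (fun v => s v < 0)) ∪
        G.edgeFinset.filter (fun e => ∀ v ∈ e, v ∈ B.filter (fun v => s v < 0))) ∪
        (G.edgeFinset.filter (fun e => ∀ v ∈ e, v ∈ A.filter (fun v => ¬ s v < 0)) ∪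
        G.edgeFinset.filter (fun e => ∀ v ∈ e, v ∈ B.filter (fun v => ¬ s v < 0))) ∪
        G.edgeFinset.filter (fun e => ∃ u ∈ e, ∃ v ∈ e, s u < 0 ∧ 0 < s v)).card := by
          apply card_le_card
          intro e he
          rw [mem_union, mem_filter, mem_filter] at he
          rcases he with he | he
          · have := split_mem G s hs A e he.1 he.2
            simp only [mem_union] at this ⊢
            tauto
          · have := split_mem G s hs B e he.1 he.2
            simp only [mem_union] at this ⊢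
            tauto
      _ ≤ _ := by
          refine (card_union_le _ _).trans ?_
          refine Nat.add_le_add_right ?_ _
          refine (card_union_le _ _).trans ?_
          exact Nat.add_le_add (card_union_le _ _) (card_union_le _ _)
  · rw [disjoint_left]
    intro e h1 h2
    rw [mem_filter] at h1 h2
    induction e with
    | _ u v =>
      exact (disjoint_left.1 hAB) (h1.2 u (by simp)) (h2.2 u (by simp))

lemma split1 (G : SimpleGraph V) (s : V → ℝ) (hs : ∀ v, s v ≠ 0) :
    G.edgeFinset.card ≤ eIn G (univ.filter (fun v => s v < 0)) +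
      eIn G (univ.filter (fun v => ¬ s v < 0)) + cutS G s := by
  unfold eIn cutS
  calc _ ≤ _ := card_le_card (fun e he => split_mem G s hs univ e he (fun v _ => mem_univ v))
    _ ≤ _ := by
      refine (card_union_le _ _).trans ?_
      rw [add_assoc]
      exact Nat.add_le_add_left (card_union_le _ _) _

lemma cutS_le_ncard (G : SimpleGraph V) (s : V → ℝ) (M : Set (Sym2 V))
    (h : ∀ e ∈ G.edgeSet, ∀ u ∈ e, ∀ v ∈ e, s u < 0 → 0 < s v → e ∈ M) : cutS G s ≤ M.ncard := by
  unfold cutS
  rw [← Set.ncard_coe_finset]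
  apply Set.ncard_le_ncard _ (Set.toFinite _)
  intro e he
  rw [Finset.mem_coe, Finset.mem_filter] at he
  obtain ⟨he, u, hu, v, hv, h1, h2⟩ := he
  rw [SimpleGraph.mem_edgeFinset] at he
  exact h e he u hu v hv h1 h2

/-- Intercept at `X = 0` of the line through `u` and `v`. -/
noncomputable def hh (X Y : V → ℝ) (u v : V) : ℝ := (Y u * X v - Y v * X u) / (X v - X u)

lemma hh_eq (X Y : V → ℝ) (m h : ℝ) (w w' : V) (h1 : X w < 0) (h2 : 0 < X w') :
    hh X Y w w' = h + ((Y w - m * X w - h) * X w' + (Y w' - m * X w' - h) * (- X w)) / (X w' - X w) := by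
  unfold hh
  have : X w' - X w ≠ 0 := by linarith
  field_simp
  ring

lemma cutoff (X Y : V → ℝ) (hGP : GP X Y) (A B : Finset V) (hA : ∀ v ∈ A, X v < 0)
    (hB : ∀ v ∈ B, 0 < X v) (a b : ℕ) (ha : 1 ≤ a) (hb : 1 ≤ b) (haA : a ≤ A.card)
    (hbB : b ≤ B.card) :
    ∃ m h : ℝ, (∀ v, Y v - m * X v - h ≠ 0) ∧
      (A.filter (fun v => Y v - m * X v - h < 0)).card = a ∧
      (B.filter (fun v => Y v - m * X v - h < 0)).card = b := by
  set Z : Set (Finset V × Finset V × V × V) := {q | q.1 ⊆ A ∧ q.1.card = a ∧ q.2.1 ⊆ B ∧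
    q.2.1.card = b ∧ q.2.2.1 ∈ q.1 ∧ q.2.2.2 ∈ q.2.1 ∧
    ∀ u' ∈ q.1, ∀ v' ∈ q.2.1, hh X Y u' v' ≤ hh X Y q.2.2.1 q.2.2.2} with hZ
  have key : ∀ S T : Finset V, S ⊆ A → S.card = a → T ⊆ B → T.card = b →
      ∃ u v, (S, T, u, v) ∈ Z := by
    intro S T h1 h2 h3 h4
    have hne : (S ×ˢ T).Nonempty := by
      rw [nonempty_product]
      constructor
      · rw [← card_pos]; omega
      · rw [← card_pos]; omega
    obtain ⟨⟨u, v⟩, huv, hmax⟩ := exists_max_image (S ×ˢ T) (fun q => hh X Y q.1 q.2) hne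
    rw [mem_product] at huv
    refine ⟨u, v, h1, h2, h3, h4, huv.1, huv.2, ?_⟩
    intro u' hu' v' hv'
    exact hmax (u', v') (mem_product.2 ⟨hu', hv'⟩)
  have hZne : Z.Nonempty := by
    obtain ⟨S, hS, hS'⟩ := exists_subset_card_eq haA
    obtain ⟨T, hT, hT'⟩ := exists_subset_card_eq hbB
    obtain ⟨u, v, huv⟩ := key S T hS hS' hT hT'
    exact ⟨_, huv⟩
  obtain ⟨⟨S, T, u, v⟩, hmem, hmin⟩ := Set.exists_min_image Z (fun q => hh X Y q.2.2.1 q.2.2.2)
    (Set.toFinite _) hZne
  obtain ⟨hSA, hSc, hTB, hTc, huS, hvT, hmax⟩ := hmem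
  simp only at hSA hSc hTB hTc huS hvT hmax hmin
  have hXu := hA u (hSA huS)
  have hXv := hB v (hTB hvT)
  have huv : u ≠ v := by rintro rfl; linarith
  have hd : 0 < X v - X u := by linarith
  set m : ℝ := (Y v - Y u) / (X v - X u) with hm
  set h : ℝ := hh X Y u v with hh'
  have gu : Y u - m * X u - h = 0 := by
    rw [hm, hh', hh]; field_simp; ring
  have gv : Y v - m * X v - h = 0 := by
    rw [hm, hh', hh]; field_simp; ring
  have F3 : ∀ w, w ≠ u → w ≠ v → Y w - m * X w - h ≠ 0 := by
    intro w h1 h2 h3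
    apply hGP u v w huv h2.symm h1.symm
    have e1 : Y w - Y u = m * (X w - X u) := by linarith
    have e2 : Y v - Y u = m * (X v - X u) := by linarith
    rw [e1, e2]; ring
  have FS : ∀ w ∈ S, Y w - m * X w - h ≤ 0 := by
    intro w hw
    have h1 := hmax w hw v hvT
    have hXw := hA w (hSA hw)
    rw [hh_eq X Y m h w v hXw hXv, gv, zero_mul, add_zero] at h1
    have h2 : (Y w - m * X w - h) * X v / (X v - X w) ≤ 0 := by
      have : hh X Y u v = h := rfl
      linarith
    have h3 : 0 < X v - X w := by linarith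
    by_contra hcon
    push Not at hcon
    have : 0 < (Y w - m * X w - h) * X v / (X v - X w) := by positivity
    linarith
  have FT : ∀ w ∈ T, Y w - m * X w - h ≤ 0 := by
    intro w hw
    have h1 := hmax u huS w hw
    have hXw := hB w (hTB hw)
    rw [hh_eq X Y m h u w hXu hXw, gu, zero_mul, zero_add] at h1
    have h2 : (Y w - m * X w - h) * (- X u) / (X w - X u) ≤ 0 := by
      have : hh X Y u v = h := rfl
      linarith
    have h3 : 0 < X w - X u := by linarith
    by_contra hcon
    push Not at hcon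
    have h4 : 0 < - X u := by linarith
    have : 0 < (Y w - m * X w - h) * (- X u) / (X w - X u) := by positivity
    linarith
  have lt1 : ∀ w w', X w < 0 → 0 < X w' → Y w - m * X w - h < 0 → Y w' - m * X w' - h ≤ 0 →
      hh X Y w w' < h := by
    intro w w' h1 h2 h3 h4
    rw [hh_eq X Y m h w w' h1 h2]
    have h5 : 0 < X w' - X w := by linarith
    have h6 : ((Y w - m * X w - h) * X w' + (Y w' - m * X w' - h) * (- X w)) < 0 := by nlinarith
    have := div_neg_of_neg_of_pos h6 h5
    linarith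
  have lt2 : ∀ w w', X w < 0 → 0 < X w' → Y w - m * X w - h ≤ 0 → Y w' - m * X w' - h < 0 →
      hh X Y w w' < h := by
    intro w w' h1 h2 h3 h4
    rw [hh_eq X Y m h w w' h1 h2]
    have h5 : 0 < X w' - X w := by linarith
    have h6 : ((Y w - m * X w - h) * X w' + (Y w' - m * X w' - h) * (- X w)) < 0 := by nlinarith
    have := div_neg_of_neg_of_pos h6 h5
    linarith
  have GA : ∀ w ∈ A, Y w - m * X w - h ≤ 0 → w ∈ S := by
    intro w hw hgw
    by_contra hwS
    have hwu : w ≠ u := by rintro rfl; exact hwS huS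
    have hXw := hA w hw
    have hwv : w ≠ v := by rintro rfl; linarith
    have hc : (insert w (S.erase u)).card = a := by
      rw [card_insert_of_notMem (by simp [hwS]), card_erase_of_mem huS]
      omega
    have hsub : insert w (S.erase u) ⊆ A := by
      intro x hx
      rw [mem_insert, mem_erase] at hx
      rcases hx with rfl | hx
      · exact hw
      · exact hSA hx.2
    obtain ⟨u1, v1, hz⟩ := key _ T hsub hc hTB hTc
    have h1 := hmin _ hz
    simp only at h1
    have hu1 : u1 ∈ insert w (S.erase u) := hz.2.2.2.2.1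
    have hv1 : v1 ∈ T := hz.2.2.2.2.2.1
    have hg1 : Y u1 - m * X u1 - h < 0 := by
      rw [mem_insert, mem_erase] at hu1
      have hne : u1 ≠ u := by
        rcases hu1 with rfl | hx
        · exact hwu
        · exact hx.1
      have hXu1 : X u1 < 0 := hA u1 (hsub hz.2.2.2.2.1)
      have hne2 : u1 ≠ v := by rintro rfl; linarith
      have hle : Y u1 - m * X u1 - h ≤ 0 := by
        rcases hu1 with rfl | hx
        · exact hgw
        · exact FS u1 hx.2
      exact lt_of_le_of_ne hle (F3 u1 hne hne2)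
    have := lt1 u1 v1 (hA u1 (hsub hu1)) (hB v1 (hTB hv1)) hg1 (FT v1 hv1)
    linarith
  have GB : ∀ w ∈ B, Y w - m * X w - h ≤ 0 → w ∈ T := by
    intro w hw hgw
    by_contra hwT
    have hwv : w ≠ v := by rintro rfl; exact hwT hvT
    have hXw := hB w hw
    have hwu : w ≠ u := by rintro rfl; linarith
    have hc : (insert w (T.erase v)).card = b := by
      rw [card_insert_of_notMem (by simp [hwT]), card_erase_of_mem hvT]
      omega
    have hsub : insert w (T.erase v) ⊆ B := by
      intro x hx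
      rw [mem_insert, mem_erase] at hx
      rcases hx with rfl | hx
      · exact hw
      · exact hTB hx.2
    obtain ⟨u1, v1, hz⟩ := key S _ hSA hSc hsub hc
    have h1 := hmin _ hz
    simp only at h1
    have hu1 : u1 ∈ S := hz.2.2.2.2.1
    have hv1 : v1 ∈ insert w (T.erase v) := hz.2.2.2.2.2.1
    have hg1 : Y v1 - m * X v1 - h < 0 := by
      rw [mem_insert, mem_erase] at hv1
      have hne : v1 ≠ v := by
        rcases hv1 with rfl | hx
        · exact hwv
        · exact hx.1
      have hXv1 : 0 < X v1 := hB v1 (hsub hz.2.2.2.2.2.1)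
      have hne2 : v1 ≠ u := by rintro rfl; linarith
      have hle : Y v1 - m * X v1 - h ≤ 0 := by
        rcases hv1 with rfl | hx
        · exact hgw
        · exact FT v1 hx.2
      exact lt_of_le_of_ne hle (F3 v1 hne2 hne)
    have := lt2 u1 v1 (hA u1 (hSA hu1)) (hB v1 (hsub hv1)) (FS u1 hu1) hg1
    linarith
  obtain ⟨δ, hδ1, hδ2⟩ := Order.exists_between_finsets
    ((univ.filter (fun w : V => Y w - m * X w - h ≤ 0)).image (fun w => Y w - m * X w - h))
    ((univ.filter (fun w : V => 0 < Y w - m * X w - h)).image (fun w => Y w - m * X w - h))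
    (by
      intro x hx y hy
      rw [mem_image] at hx hy
      obtain ⟨w, hw, rfl⟩ := hx
      obtain ⟨w', hw', rfl⟩ := hy
      exact lt_of_le_of_lt (mem_filter.1 hw).2 (mem_filter.1 hw').2)
  have hiff : ∀ w : V, (Y w - m * X w - (h + δ) < 0 ↔ Y w - m * X w - h ≤ 0) ∧
      Y w - m * X w - (h + δ) ≠ 0 := by
    intro w
    by_cases hw : Y w - m * X w - h ≤ 0
    · have := hδ1 _ (mem_image_of_mem _ (mem_filter.2 ⟨mem_univ w, hw⟩))
      constructor
      · constructor
        · intro _; exact hw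
        · intro _; linarith
      · intro h0; linarith
    · push Not at hw
      have := hδ2 _ (mem_image_of_mem _ (mem_filter.2 ⟨mem_univ w, hw⟩))
      constructor
      · constructor
        · intro h0; linarith
        · intro h0; linarith
      · intro h0; linarith
  refine ⟨m, h + δ, fun w => (hiff w).2, ?_, ?_⟩
  · rw [← hSc]
    congr 1
    ext w
    rw [mem_filter, (hiff w).1]
    exact ⟨fun hw => GA w hw.1 hw.2, fun hw => ⟨hSA hw, FS w hw⟩⟩
  · rw [← hTc]
    congr 1
    ext w
    rw [mem_filter, (hiff w).1]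
    exact ⟨fun hw => GB w hw.1 hw.2, fun hw => ⟨hTB hw, FT w hw⟩⟩

/-- Sequential cutting: two separated sets of points are cut by `l.length - 1` lines into parts of
prescribed sizes. -/
lemma seqCut (G : SimpleGraph V) (X Y : V → ℝ) (hGP : GP X Y) (c : ℕ)
    (hc : ∀ m h : ℝ, (∀ v, Y v - m * X v - h ≠ 0) → cutS G (fun v => Y v - m * X v - h) ≤ c)
    (q0 : ℕ × ℕ) (l : List (ℕ × ℕ)) :
    ∀ (A B : Finset V), (∀ v ∈ A, X v < 0) → (∀ v ∈ B, 0 < X v) →
      (∀ q ∈ l, 1 ≤ q.1 ∧ 1 ≤ q.2) →
      A.card = (l.map Prod.fst).sum + q0.1 → B.card = (l.map Prod.snd).sum + q0.2 →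
      eIn G A + eIn G B ≤ (l.map (fun q => q.1.choose 2 + q.2.choose 2)).sum +
        (q0.1.choose 2 + q0.2.choose 2) + l.length * c := by
  induction l with
  | nil =>
    intro A B hA hB _ h1 h2
    have e1 := eIn_le G A
    have e2 := eIn_le G B
    simp only [List.map_nil, List.sum_nil, List.length_nil, zero_add] at *
    rw [h1] at e1
    rw [h2] at e2
    omega
  | cons q l ih =>
    intro A B hA hB hl h1 h2
    have hq := hl q (by simp)
    simp only [List.map_cons, List.sum_cons, List.length_cons] at *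
    obtain ⟨m, h, hne, ha, hb⟩ := cutoff X Y hGP A B hA hB q.1 q.2 hq.1 hq.2 (by omega) (by omega)
    have hdis : Disjoint A B := by
      rw [disjoint_left]
      intro v hv hv'
      have := hA v hv
      have := hB v hv'
      linarith
    have hsp := split2 G (fun v => Y v - m * X v - h) hne A B hdis
    have hcut := hc m h hne
    have e1 := eIn_le G (A.filter (fun v => Y v - m * X v - h < 0))
    have e2 := eIn_le G (B.filter (fun v => Y v - m * X v - h < 0))
    rw [ha] at e1
    rw [hb] at e2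
    have cA : (A.filter (fun v => ¬ (Y v - m * X v - h < 0))).card = (l.map Prod.fst).sum + q0.1 := by
      have := card_filter_add_card_filter_not (s := A) (fun v => Y v - m * X v - h < 0)
      omega
    have cB : (B.filter (fun v => ¬ (Y v - m * X v - h < 0))).card = (l.map Prod.snd).sum + q0.2 := by
      have := card_filter_add_card_filter_not (s := B) (fun v => Y v - m * X v - h < 0)
      omega
    have hih := ih (A.filter (fun v => ¬ (Y v - m * X v - h < 0)))
      (B.filter (fun v => ¬ (Y v - m * X v - h < 0)))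
      (fun v hv => hA v (mem_filter.1 hv).1) (fun v hv => hB v (mem_filter.1 hv).1)
      (fun q' hq' => hl q' (by simp [hq'])) cA cB
    have : (l.length + 1) * c = l.length * c + c := by ring
    omega

/-- A threshold with a prescribed number of points below it. -/
lemma threshold (X : V → ℝ) (hX : Function.Injective X) (a : ℕ) (ha : a ≤ Fintype.card V) :
    ∃ c0 : ℝ, (∀ v, X v - c0 ≠ 0) ∧ (univ.filter (fun v => X v - c0 < 0)).card = a := by
  have hne : (powersetCard a (univ : Finset V)).Nonempty := by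
    rw [powersetCard_nonempty]; simpa using ha
  obtain ⟨S, hS, hmin⟩ := exists_min_image (powersetCard a (univ : Finset V)) (fun S => ∑ v ∈ S, X v) hne
  rw [mem_powersetCard] at hS
  have hlt : ∀ u ∈ S, ∀ w, w ∉ S → X u < X w := by
    intro u hu w hw
    by_contra hcon
    push Not at hcon
    have hne' : w ≠ u := by rintro rfl; exact hw hu
    have hlt : X w < X u := lt_of_le_of_ne hcon (fun h => hne' (hX h))
    have hmem : insert w (S.erase u) ∈ powersetCard a (univ : Finset V) := by
      rw [mem_powersetCard]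
      refine ⟨subset_univ _, ?_⟩
      rw [card_insert_of_notMem (by simp [hw]), card_erase_of_mem hu]
      have : 0 < S.card := card_pos.2 ⟨u, hu⟩
      omega
    have h1 := hmin _ hmem
    rw [sum_insert (by simp [hw])] at h1
    have h2 := add_sum_erase S X hu
    linarith
  obtain ⟨c0, h1, h2⟩ := Order.exists_between_finsets (S.image X) ((univ \ S).image X) (by
    intro x hx y hy
    rw [mem_image] at hx hy
    obtain ⟨u, hu, rfl⟩ := hx
    obtain ⟨w, hw, rfl⟩ := hy
    rw [mem_sdiff] at hw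
    exact hlt u hu w hw.2)
  refine ⟨c0, ?_, ?_⟩
  · intro v
    by_cases hv : v ∈ S
    · have := h1 _ (mem_image_of_mem _ hv)
      intro h0; linarith
    · have := h2 _ (mem_image_of_mem X (mem_sdiff.2 ⟨mem_univ v, hv⟩))
      intro h0; linarith
  · rw [← hS.2]
    congr 1
    ext v
    rw [mem_filter]
    constructor
    · rintro ⟨_, hv⟩
      by_contra hvS
      have := h2 _ (mem_image_of_mem X (mem_sdiff.2 ⟨mem_univ v, hvS⟩))
      linarith
    · intro hv
      have := h1 _ (mem_image_of_mem X hv)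
      exact ⟨mem_univ v, by linarith⟩

/-- Main bound: if every line avoiding the points crosses at most `c` edges then
`e(G) ≤ N (q² - q + c) + r q` with `n = 2 N q + r`. -/
theorem mainBound (G : SimpleGraph V) (X0 Y : V → ℝ) (hX : Function.Injective X0) (hGP : GP X0 Y)
    (c : ℕ) (hc : ∀ α β γ : ℝ, ¬ (α = 0 ∧ β = 0) → (∀ v, α * X0 v + β * Y v - γ ≠ 0) →
      cutS G (fun v => α * X0 v + β * Y v - γ) ≤ c)
    (q r2 e g : ℕ) (hq : 1 ≤ q) (hg : 1 ≤ r2 + e + g)
    (hn : Fintype.card V = 2 * (r2 + e + g) * q + (2 * r2 + e)) :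
    G.edgeFinset.card ≤ (r2 + e + g) * (2 * q.choose 2 + c) + (2 * r2 + e) * q := by
  -- the list of parts
  obtain ⟨q0, l, hl, hs1, hs2, hs3, hlen⟩ : ∃ (q0 : ℕ × ℕ) (l : List (ℕ × ℕ)),
      (∀ q ∈ l, 1 ≤ q.1 ∧ 1 ≤ q.2) ∧
      (l.map Prod.fst).sum + q0.1 = (r2 + e + g) * q + (r2 + e) ∧
      (l.map Prod.snd).sum + q0.2 = (r2 + e + g) * q + r2 ∧
      (l.map (fun q => q.1.choose 2 + q.2.choose 2)).sum + (q0.1.choose 2 + q0.2.choose 2) =
        (r2 + e + g) * (2 * q.choose 2) + (2 * r2 + e) * q ∧ l.length + 1 = r2 + e + g := by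
    have hch : (q + 1).choose 2 = q.choose 2 + q := by
      rw [Nat.choose_succ_succ' q 1, Nat.choose_one_right]; ring
    rcases Nat.eq_zero_or_pos g with rfl | hg'
    · rcases Nat.eq_zero_or_pos e with rfl | he'
      · obtain ⟨r, rfl⟩ : ∃ r, r2 = r + 1 := ⟨r2 - 1, by omega⟩
        refine ⟨(q + 1, q + 1), List.replicate r (q + 1, q + 1), ?_, ?_, ?_, ?_, ?_⟩
        · intro x hx
          rw [List.mem_replicate] at hx
          rw [hx.2]; simp
        · simp; ring
        · simp; ring
        · simp [hch]; ring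
        · simp
      · obtain ⟨e', rfl⟩ : ∃ r, e = r + 1 := ⟨e - 1, by omega⟩
        refine ⟨(q + 1, q), List.replicate r2 (q + 1, q + 1) ++ List.replicate e' (q + 1, q), ?_, ?_, ?_, ?_, ?_⟩
        · intro x hx
          rw [List.mem_append, List.mem_replicate, List.mem_replicate] at hx
          rcases hx with hx | hx <;> rw [hx.2] <;> simp [hq]
        · simp; ring
        · simp; ring
        · simp [hch]; ring
        · simp; ring
    · obtain ⟨g', rfl⟩ : ∃ r, g = r + 1 := ⟨g - 1, by omega⟩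
      refine ⟨(q, q), List.replicate r2 (q + 1, q + 1) ++ List.replicate e (q + 1, q) ++
        List.replicate g' (q, q), ?_, ?_, ?_, ?_, ?_⟩
      · intro x hx
        rw [List.mem_append, List.mem_append, List.mem_replicate, List.mem_replicate,
          List.mem_replicate] at hx
        rcases hx with (hx | hx) | hx <;> rw [hx.2] <;> simp [hq]
      · simp; ring
      · simp; ring
      · simp [hch]; ring
      · simp; ring
  obtain ⟨c0, hc0, hcard⟩ := threshold X0 hX ((r2 + e + g) * q + (r2 + e)) (by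
    rw [hn]
    have : 2 * (r2 + e + g) * q = (r2 + e + g) * q + (r2 + e + g) * q := by ring
    omega)
  have hGP' : GP (fun v => X0 v - c0) Y := by
    intro i j k h1 h2 h3
    have := hGP i j k h1 h2 h3
    simp only
    intro h4
    apply this
    linarith
  have hcut0 : cutS G (fun v => X0 v - c0) ≤ c := by
    have := hc 1 0 c0 (by simp) (by intro v; simpa using hc0 v)
    simpa using this
  have hs := split1 G (fun v => X0 v - c0) hc0
  have hcard2 : (univ.filter (fun v => ¬ (X0 v - c0 < 0))).card = (r2 + e + g) * q + r2 := by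
    have := card_filter_add_card_filter_not (s := (univ : Finset V)) (fun v => X0 v - c0 < 0)
    rw [hcard, card_univ, hn] at this
    have h2 : 2 * (r2 + e + g) * q = (r2 + e + g) * q + (r2 + e + g) * q := by ring
    omega
  have hseq := seqCut G (fun v => X0 v - c0) Y hGP' c (by
      intro m h hne
      have e1 : (fun v => Y v - m * (X0 v - c0) - h) = (fun v => (-m) * X0 v + 1 * Y v - (h - m * c0)) := by
        ext v; ring
      rw [e1]
      apply hc (-m) 1 (h - m * c0) (by simp)
      intro v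
      have := hne v
      intro h5
      apply this
      rw [← h5]; ring) q0 l (univ.filter (fun v => X0 v - c0 < 0))
      (univ.filter (fun v => ¬ (X0 v - c0 < 0)))
      (fun v hv => (mem_filter.1 hv).2)
      (fun v hv => by
        have h1 := (mem_filter.1 hv).2
        push Not at h1
        exact lt_of_le_of_ne h1 (Ne.symm (hc0 v)))
      hl (by rw [hcard, hs1]) (by rw [hcard2, hs2])
  rw [hs3] at hseq
  have e3 : (r2 + e + g) * (2 * q.choose 2 + c) = (r2 + e + g) * (2 * q.choose 2) + l.length * c + c := by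
    rw [← hlen]; ring
  omega

/-- Integer form of the main bound. -/
theorem intBound (G : SimpleGraph V) (X0 Y : V → ℝ) (hX : Function.Injective X0) (hGP : GP X0 Y)
    (c : ℕ) (hc : ∀ α β γ : ℝ, ¬ (α = 0 ∧ β = 0) → (∀ v, α * X0 v + β * Y v - γ ≠ 0) →
      cutS G (fun v => α * X0 v + β * Y v - γ) ≤ c)
    (n k N : ℕ) (hn : Fintype.card V = n) (hN : 1 ≤ N) (hNn : 2 * N ≤ n)
    (hE : n * k < G.edgeFinset.card) :
    4 * (N : ℤ) ^ 2 * (k ^ 2 + k) < 4 * N ^ 2 * c + (n - N * (2 * k + 1)) ^ 2 := by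
  set q := n / (2 * N) with hq
  set r := n % (2 * N) with hr
  have hnr : n = 2 * N * q + r := (Nat.div_add_mod n (2 * N)).symm
  have hrlt : r < 2 * N := Nat.mod_lt _ (by omega)
  have hq1 : 1 ≤ q := by
    rw [hq, Nat.one_le_div_iff (by omega)]; exact hNn
  have hr2 : r = 2 * (r / 2) + r % 2 := (Nat.div_add_mod r 2).symm
  obtain ⟨g, hg⟩ : ∃ g, N = r / 2 + r % 2 + g := ⟨N - (r / 2 + r % 2), by omega⟩
  have hmb := mainBound G X0 Y hX hGP c hc q (r / 2) (r % 2) g hq1 (by omega)
    (by rw [hn, ← hg, ← hr2]; exact hnr)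
  rw [← hg, ← hr2] at hmb
  have hch : 2 * q.choose 2 = q * (q - 1) := by
    rw [Nat.choose_two_right]
    exact Nat.mul_div_cancel' (Nat.even_mul_pred_self q).two_dvd
  rw [hch] at hmb
  obtain ⟨q', hq'⟩ : ∃ q', q = q' + 1 := ⟨q - 1, by omega⟩
  have h1 : n * k + 1 ≤ N * (q * (q - 1) + c) + r * q := by omega
  have h2 : (n : ℤ) * k + 1 ≤ N * (q * (q - 1) + c) + r * q := by
    rw [hq', Nat.add_sub_cancel] at h1
    rw [hq']
    push_cast
    have := (Int.ofNat_le).2 h1
    push_cast at this
    linarith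
  have h3 : (n : ℤ) = 2 * N * q + r := by exact_mod_cast hnr
  have hNz : (1 : ℤ) ≤ N := by exact_mod_cast hN
  have h4 : 4 * (N : ℤ) * (n * k + 1) ≤ 4 * N * (N * (q * (q - 1) + c) + r * q) :=
    mul_le_mul_of_nonneg_left h2 (by linarith)
  have h5 : 0 ≤ ((N : ℤ) - r) ^ 2 := sq_nonneg _
  have h6 : 4 * (N : ℤ) * (N * (q * (q - 1) + c) + r * q) + ((N : ℤ) - r) ^ 2 =
      4 * N ^ 2 * c + (n - N * (2 * k + 1)) ^ 2 + 4 * N * n * k - 4 * N ^ 2 * (k ^ 2 + k) := by
    rw [h3]; ring
  nlinarith

/-- Exact form when `2k` divides the number of points. -/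
theorem exactBound (G : SimpleGraph V) (X0 Y : V → ℝ) (hX : Function.Injective X0) (hGP : GP X0 Y)
    (c : ℕ) (hc : ∀ α β γ : ℝ, ¬ (α = 0 ∧ β = 0) → (∀ v, α * X0 v + β * Y v - γ ≠ 0) →
      cutS G (fun v => α * X0 v + β * Y v - γ) ≤ c)
    (k N : ℕ) (hk : 1 ≤ k) (hn : Fintype.card V = 2 * N * k) (hN : 1 ≤ N)
    (hE : 2 * N * k * k < G.edgeFinset.card) : k ^ 2 + k < c := by
  have hmb := mainBound G X0 Y hX hGP c hc k 0 0 N hk (by omega) (by rw [hn]; ring)
  have hch : 2 * k.choose 2 = k * (k - 1) := by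
    rw [Nat.choose_two_right]
    exact Nat.mul_div_cancel' (Nat.even_mul_pred_self k).two_dvd
  rw [hch] at hmb
  simp only [zero_add, mul_zero, zero_mul, add_zero] at hmb
  have h1 : N * (2 * k * k) < N * (k * (k - 1) + c) := by
    calc N * (2 * k * k) = 2 * N * k * k := by ring
      _ < _ := lt_of_lt_of_le hE hmb
  have h2 := Nat.lt_of_mul_lt_mul_left h1
  obtain ⟨j, rfl⟩ : ∃ j, k = j + 1 := ⟨k - 1, by omega⟩
  simp only [Nat.add_sub_cancel] at h2
  nlinarith

end Abstract

end Pool.Agent.R18.LX
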